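import Pool.Agent.Y481.PL.LI1

/-!
# The analytic projection maps bounded functions to `BMO`
-/

set_option autoImplicit false

namespace Pool.Agent.Y481.PL

open MeasureTheory Set Filter Topology
open scoped FourierTransform ENNReal ContDiff
open Pool.Agent.Y290.PL

/-- smooth functions with compact support -/
structure SC (F : ℝ → ℂ) : Prop where
  s : ContDiff ℝ ∞ F
  c : HasCompactSupport F

lemma SC.int {F : ℝ → ℂ} (h : SC F) : Integrable F := h.s.continuous.integrable_of_hasCompactSupport h.c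

lemma SC.four {F : ℝ → ℂ} (h : SC F) : Integrable (𝓕 F) ∧ (Integrable fun ξ => ‖𝓕 F ξ‖ ^ 2) ∧
    ∫ ξ, ‖𝓕 F ξ‖ ^ 2 = ∫ x, ‖F x‖ ^ 2 := by
  obtain ⟨f, hf⟩ : ∃ f : SchwartzMap ℝ ℂ, (f : ℝ → ℂ) = F := ⟨h.c.toSchwartzMap h.s, rfl⟩
  subst hf
  have e : 𝓕 (f : ℝ → ℂ) = (𝓕 f : SchwartzMap ℝ ℂ) := (SchwartzMap.fourier_coe f).symm
  rw [e]
  refine ⟨(𝓕 f).integrable, ?_, ?_⟩
  · have h2 := ((𝓕 f).memLp 2 volume).integrable_norm_pow (by norm_num)
    simpa using h2
  · exact SchwartzMap.integral_norm_sq_fourier f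

lemma four_eq (F : ℝ → ℂ) (ξ : ℝ) : 𝓕 F ξ = ∫ y, F y * ex y (-ξ) := by
  rw [Real.fourier_real_eq_integral_exp_smul]
  congr 1
  funext y
  unfold ex
  rw [smul_eq_mul, mul_comm]
  congr 3
  ring_nf

lemma four_add {F G : ℝ → ℂ} (hF : Integrable F) (hG : Integrable G) (ξ : ℝ) :
    𝓕 (fun y => F y + G y) ξ = 𝓕 F ξ + 𝓕 G ξ := by
  rw [four_eq, four_eq, four_eq, ← integral_add]
  · congr 1
    funext y
    ring
  · refine (hF.bdd_mul (c := 1) (f := fun y => ex y (-ξ)) (ex_cont_l _).aestronglyMeasurable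
      (Eventually.of_forall fun y => (ex_norm _ _).le)).congr ?_
    exact Eventually.of_forall fun ξ => mul_comm _ _
  · refine (hG.bdd_mul (c := 1) (f := fun y => ex y (-ξ)) (ex_cont_l _).aestronglyMeasurable
      (Eventually.of_forall fun y => (ex_norm _ _).le)).congr ?_
    exact Eventually.of_forall fun ξ => mul_comm _ _

lemma Pp_add {F G : ℝ → ℂ} (hF : SC F) (hG : SC G) (x : ℝ) :
    Pp (fun y => F y + G y) x = Pp F x + Pp G x := by
  unfold Pp
  rw [← integral_add ((int_mul_ex hF.four.1 x).integrableOn) ((int_mul_ex hG.four.1 x).integrableOn)]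
  congr 1
  funext ξ
  rw [four_add hF.int hG.int]
  ring

lemma Pp_U (F : ℝ → ℂ) (x : ℝ) : Pp F x = U ((Ioi (0 : ℝ)).indicator (𝓕 F)) x := by
  unfold Pp U
  rw [← integral_indicator measurableSet_Ioi]
  congr 1
  funext ξ
  by_cases h : ξ ∈ Ioi (0 : ℝ)
  · rw [indicator_of_mem h, indicator_of_mem h]
  · rw [indicator_of_notMem h, indicator_of_notMem h, zero_mul]

lemma Pp_cont {F : ℝ → ℂ} (hF : SC F) : Continuous (Pp F) := by
  have h : Pp F = U ((Ioi (0 : ℝ)).indicator (𝓕 F)) := funext (Pp_U F)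
  rw [h]
  exact U_cont (hF.four.1.indicator measurableSet_Ioi)

/-- the near part -/
lemma near {F : ℝ → ℂ} (hF : SC F) {a b : ℝ} (hab : a < b) :
    ∫ x in a..b, ‖Pp F x‖ ^ 2 ≤ 4 * ∫ x, ‖F x‖ ^ 2 := by
  obtain ⟨h1, h2, h3⟩ := hF.four
  have h4 : Integrable ((Ioi (0 : ℝ)).indicator (𝓕 F)) := h1.indicator measurableSet_Ioi
  have e : ∀ ξ, ‖(Ioi (0 : ℝ)).indicator (𝓕 F) ξ‖ ^ 2 =
      (Ioi (0 : ℝ)).indicator (fun ξ => ‖𝓕 F ξ‖ ^ 2) ξ := by
    intro ξ
    by_cases h : ξ ∈ Ioi (0 : ℝ)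
    · rw [indicator_of_mem h, indicator_of_mem h]
    · rw [indicator_of_notMem h, indicator_of_notMem h, norm_zero, zero_pow two_ne_zero]
  have h5 : Integrable fun ξ => ‖(Ioi (0 : ℝ)).indicator (𝓕 F) ξ‖ ^ 2 := by
    simp_rw [e]
    exact h2.indicator measurableSet_Ioi
  have h6 := l2i h4 h5 hab
  simp_rw [← Pp_U] at h6
  refine h6.trans (mul_le_mul_of_nonneg_left ?_ (by norm_num))
  rw [← h3]
  simp_rw [e]
  rw [integral_indicator measurableSet_Ioi]
  exact setIntegral_le_integral h2 (Eventually.of_forall fun ξ => by positivity)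

/-! ### The far part -/

/-- the regularised projection -/
noncomputable def ut (F : ℝ → ℂ) (t x : ℝ) : ℂ :=
  ∫ ξ in Ioi (0 : ℝ), 𝓕 F ξ * ex x ξ * (Real.exp (-(2 * Real.pi * t) * ξ) : ℂ)

lemma ut_lim {F : ℝ → ℂ} (hF : SC F) (x : ℝ) :
    Tendsto (fun t => ut F t x) (𝓝[>] 0) (𝓝 (Pp F x)) := by
  unfold ut Pp
  refine tendsto_integral_filter_of_dominated_convergence (fun ξ => ‖𝓕 F ξ‖) ?_ ?_ ?_ ?_
  · refine Eventually.of_forall fun t => ?_
    refine ((int_mul_ex hF.four.1 x).aestronglyMeasurable.mul ?_).restrict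
    have : Continuous fun ξ : ℝ => (Real.exp (-(2 * Real.pi * t) * ξ) : ℂ) := by fun_prop
    exact this.aestronglyMeasurable
  · filter_upwards [self_mem_nhdsWithin] with t ht
    rw [ae_restrict_iff' measurableSet_Ioi]
    refine Eventually.of_forall fun ξ hξ => ?_
    rw [norm_mul, norm_mul, ex_norm, mul_one, Complex.norm_real, Real.norm_eq_abs,
      abs_of_pos (Real.exp_pos _)]
    refine mul_le_of_le_one_right (norm_nonneg _) (Real.exp_le_one_iff.2 ?_)
    have h1 : (0 : ℝ) < t := ht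
    have h2 : (0 : ℝ) < ξ := hξ
    have := Real.pi_pos
    have : 0 ≤ 2 * Real.pi * t * ξ := by positivity
    linarith
  · exact hF.four.1.norm.integrableOn
  · refine Eventually.of_forall fun ξ => ?_
    have h1 : Continuous fun t : ℝ => 𝓕 F ξ * ex x ξ * (Real.exp (-(2 * Real.pi * t) * ξ) : ℂ) := by
      fun_prop
    have h2 := (h1.tendsto 0).mono_left (nhdsWithin_le_nhds (s := Ioi (0 : ℝ)))
    simpa using h2

lemma den_ne {t : ℝ} (ht : 0 < t) (s : ℝ) : (t : ℂ) - Complex.I * s ≠ 0 := by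
  intro h
  have := congrArg Complex.re h
  simp at this
  linarith

lemma ut_eq {F : ℝ → ℂ} (hF : SC F) {t : ℝ} (ht : 0 < t) (x : ℝ) :
    ut F t x = ∫ y, F y * (1 / (2 * Real.pi * (t - Complex.I * ((x - y : ℝ) : ℂ)))) := by
  have hpi := Real.pi_pos
  have h1 : Integrable (fun p : ℝ × ℝ => ((Real.exp (-(2 * Real.pi * t) * p.1) : ℝ) : ℂ) *
      (F p.2 * ex (x - p.2) p.1)) ((volume.restrict (Ioi (0 : ℝ))).prod volume) := by
    have h2 : Integrable (fun ξ => ((Real.exp (-(2 * Real.pi * t) * ξ) : ℝ) : ℂ))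
        (volume.restrict (Ioi (0 : ℝ))) := by
      have h3 := integrableOn_exp_mul_Ioi (a := -(2 * Real.pi * t)) (by
        have : 0 < 2 * Real.pi * t := by positivity
        linarith) 0
      exact Integrable.ofReal h3
    have h4 := h2.mul_prod hF.int
    have hc : Continuous fun p : ℝ × ℝ => ex (x - p.2) p.1 := by
      unfold ex
      fun_prop
    refine (h4.bdd_mul (c := 1) (f := fun p : ℝ × ℝ => ex (x - p.2) p.1)
      hc.aestronglyMeasurable (Eventually.of_forall fun p => (ex_norm _ _).le)).congr ?_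
    exact Eventually.of_forall fun p => by ring
  unfold ut
  have h2 : ∀ ξ, 𝓕 F ξ * ex x ξ * (Real.exp (-(2 * Real.pi * t) * ξ) : ℂ) =
      ∫ y, ((Real.exp (-(2 * Real.pi * t) * ξ) : ℝ) : ℂ) * (F y * ex (x - y) ξ) := by
    intro ξ
    rw [integral_const_mul, mul_comm]
    congr 1
    rw [four_eq, ← integral_mul_const]
    congr 1
    funext y
    have : ex (x - y) ξ = ex y (-ξ) * ex x ξ := by
      unfold ex
      rw [← Complex.exp_add]
      congr 1
      push_cast
      ring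
    rw [this]
    ring
  simp_rw [h2]
  rw [integral_integral_swap h1]
  congr 1
  funext y
  have h3 : ∀ ξ : ℝ, ((Real.exp (-(2 * Real.pi * t) * ξ) : ℝ) : ℂ) * (F y * ex (x - y) ξ) =
      F y * Complex.exp (-(2 * Real.pi * (t - Complex.I * ((x - y : ℝ) : ℂ))) * ξ) := by
    intro ξ
    unfold ex
    rw [Complex.ofReal_exp, mul_left_comm, ← Complex.exp_add]
    congr 2
    push_cast
    ring
  simp_rw [h3]
  rw [integral_const_mul]
  congr 1
  rw [integral_exp_mul_complex_Ioi (a := -(2 * Real.pi * (t - Complex.I * ((x - y : ℝ) : ℂ))))]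
  · have h4 := den_ne ht (x - y)
    have h5 : (Real.pi : ℂ) ≠ 0 := by exact_mod_cast hpi.ne'
    rw [Complex.ofReal_zero, mul_zero, Complex.exp_zero]
    field_simp
  · have : (-(2 * Real.pi * (t - Complex.I * ((x - y : ℝ) : ℂ))) : ℂ).re = -(2 * Real.pi * t) := by
      simp
    rw [this]
    have : 0 < 2 * Real.pi * t := by positivity
    linarith

lemma den_ge (t s : ℝ) : |s| ≤ ‖(t : ℂ) - Complex.I * s‖ := by
  have h := Complex.abs_im_le_norm ((t : ℂ) - Complex.I * s)
  simp at h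
  exact h

/-- the far part -/
lemma far {F : ℝ → ℂ} (hF : SC F) {N l c : ℝ} (hl : 0 < l) (hN : ∀ y, ‖F y‖ ≤ N)
    (h0 : ∀ y, |y - c| ≤ l → F y = 0) {x x' : ℝ} (hx : |x - c| ≤ l / 2) (hx' : |x' - c| ≤ l / 2) :
    ‖Pp F x - Pp F x'‖ ≤ 4 * N := by
  have hpi := Real.pi_pos
  have hN0 : 0 ≤ N := (norm_nonneg _).trans (hN 0)
  have hlim : Tendsto (fun t => ‖ut F t x - ut F t x'‖) (𝓝[>] 0) (𝓝 ‖Pp F x - Pp F x'‖) :=
    ((ut_lim hF x).sub (ut_lim hF x')).norm
  refine le_of_tendsto hlim ?_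
  filter_upwards [self_mem_nhdsWithin] with t ht
  have ht' : 0 < t := ht
  have hb : ∀ z : ℝ, Integrable fun y => F y * (1 / (2 * Real.pi * (t - Complex.I * ((z - y : ℝ) : ℂ)))) := by
    intro z
    have hc : Continuous fun y : ℝ => (1 / (2 * Real.pi * (t - Complex.I * ((z - y : ℝ) : ℂ))) : ℂ) := by
      refine continuous_const.div (by fun_prop) fun y => ?_
      have h5 : (Real.pi : ℂ) ≠ 0 := by exact_mod_cast hpi.ne'
      exact mul_ne_zero (mul_ne_zero two_ne_zero h5) (den_ne ht' _)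
    exact (hF.s.continuous.mul hc).integrable_of_hasCompactSupport hF.c.mul_right
  rw [ut_eq hF ht', ut_eq hF ht', ← integral_sub (hb x) (hb x')]
  -- the majorant
  obtain ⟨g, hg⟩ : ∃ g : ℝ → ℝ, g = fun y => N * l * (8 / (2 * Real.pi)) *
      ((l ^ 2)⁻¹ * (1 + ((y - c) / l) ^ 2)⁻¹) := ⟨_, rfl⟩
  have hgi : Integrable g := by
    rw [hg]
    have h1 : Integrable fun y : ℝ => (1 + ((y - c) / l) ^ 2)⁻¹ :=
      (integrable_inv_one_add_sq.comp_div hl.ne').comp_sub_right c
    exact (h1.const_mul _).const_mul _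
  have hgv : ∫ y, g y = 4 * N := by
    rw [hg, integral_const_mul, integral_const_mul,
      integral_sub_right_eq_self (fun y : ℝ => (1 + (y / l) ^ 2)⁻¹) c,
      Measure.integral_comp_div (fun y : ℝ => (1 + y ^ 2)⁻¹) l, integral_univ_inv_one_add_sq,
      abs_of_pos hl, smul_eq_mul]
    field_simp
    ring
  refine (norm_integral_le_integral_norm _).trans (le_trans ?_ hgv.le)
  refine integral_mono_of_nonneg (Eventually.of_forall fun y => norm_nonneg _) hgi
    (Eventually.of_forall fun y => ?_)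
  show ‖F y * (1 / (2 * Real.pi * (t - Complex.I * ((x - y : ℝ) : ℂ)))) -
        F y * (1 / (2 * Real.pi * (t - Complex.I * ((x' - y : ℝ) : ℂ))))‖ ≤ g y
  by_cases hy : |y - c| ≤ l
  · rw [h0 y hy, zero_mul, zero_mul, sub_self, norm_zero, hg]
    positivity
  · rw [not_le] at hy
    have a1 := den_ne ht' (x - y)
    have a2 := den_ne ht' (x' - y)
    have h5 : (Real.pi : ℂ) ≠ 0 := by exact_mod_cast hpi.ne'
    have e1 : F y * (1 / (2 * Real.pi * (t - Complex.I * ((x - y : ℝ) : ℂ)))) -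
        F y * (1 / (2 * Real.pi * (t - Complex.I * ((x' - y : ℝ) : ℂ)))) =
        F y * (Complex.I * ((x - x' : ℝ) : ℂ) / (2 * Real.pi *
          ((t - Complex.I * ((x - y : ℝ) : ℂ)) * (t - Complex.I * ((x' - y : ℝ) : ℂ))))) := by
      rw [← mul_sub]
      congr 1
      field_simp
      push_cast
      ring
    show ‖F y * (1 / (2 * Real.pi * (t - Complex.I * ((x - y : ℝ) : ℂ)))) -
        F y * (1 / (2 * Real.pi * (t - Complex.I * ((x' - y : ℝ) : ℂ))))‖ ≤ g y
    have hd : ∀ z : ℝ, |z - c| ≤ l / 2 → |y - c| / 2 ≤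
        ‖(t : ℂ) - Complex.I * ((z - y : ℝ) : ℂ)‖ := by
      intro z hz
      refine le_trans ?_ (den_ge t (z - y))
      have h6 : |y - c| ≤ |z - y| + |z - c| := by
        have h7 : y - c = -(z - y) + (z - c) := by ring
        rw [h7]
        refine (abs_add_le _ _).trans ?_
        rw [abs_neg]
      linarith
    have hp : |y - c| / 2 * (|y - c| / 2) ≤ ‖(t : ℂ) - Complex.I * ((x - y : ℝ) : ℂ)‖ *
        ‖(t : ℂ) - Complex.I * ((x' - y : ℝ) : ℂ)‖ :=
      mul_le_mul (hd x hx) (hd x' hx') (by positivity) (norm_nonneg _)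
    have hp2 : (l ^ 2 + (y - c) ^ 2) / 8 ≤ |y - c| / 2 * (|y - c| / 2) := by
      have h6 : |y - c| ^ 2 = (y - c) ^ 2 := sq_abs _
      nlinarith
    have hxx : |x - x'| ≤ l := by
      have h7 : x - x' = (x - c) - (x' - c) := by ring
      rw [h7]
      refine (abs_sub _ _).trans ?_
      linarith
    have hpos : 0 < (l ^ 2 + (y - c) ^ 2) / 8 := by positivity
    rw [e1, norm_mul, norm_div, norm_mul, norm_mul, norm_mul, norm_mul, Complex.norm_I, one_mul,
      Complex.norm_real, Complex.norm_real, Real.norm_eq_abs, Real.norm_eq_abs, abs_of_pos hpi,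
      Complex.norm_ofNat]
    have h8 : |x - x'| / (2 * Real.pi * (‖(t : ℂ) - Complex.I * ((x - y : ℝ) : ℂ)‖ *
        ‖(t : ℂ) - Complex.I * ((x' - y : ℝ) : ℂ)‖)) ≤
        l / (2 * Real.pi * ((l ^ 2 + (y - c) ^ 2) / 8)) := by
      apply div_le_div₀ hl.le hxx (by positivity)
      exact mul_le_mul_of_nonneg_left (hp2.trans hp) (by positivity)
    refine (mul_le_mul (hN y) h8 (by positivity) hN0).trans (le_of_eq ?_)
    rw [hg]
    field_simp

/-! ### Assembly -/

lemma osc_le {f : ℝ → ℂ} (hf : Continuous f) {a b : ℝ} (hab : a < b) (κ : ℂ) :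
    osc f a b ≤ 2 * ((∫ x in a..b, ‖f x - κ‖) / (b - a)) := by
  have hl : 0 < b - a := sub_pos.2 hab
  have hlc : ((b - a : ℝ) : ℂ) ≠ 0 := by exact_mod_cast hl.ne'
  have h1 : ‖κ - avg f a b‖ ≤ (∫ x in a..b, ‖f x - κ‖) / (b - a) := by
    have e : κ - avg f a b = -(∫ x in a..b, (f x - κ)) / ((b - a : ℝ) : ℂ) := by
      rw [intervalIntegral.integral_sub (hf.intervalIntegrable _ _)
        (continuous_const.intervalIntegrable _ _), intervalIntegral.integral_const]
      unfold avg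
      rw [Complex.real_smul]
      field_simp
      ring
    rw [e, norm_div, norm_neg, Complex.norm_real, Real.norm_eq_abs, abs_of_pos hl]
    gcongr
    exact intervalIntegral.norm_integral_le_integral_norm hab.le
  unfold osc
  have h2 : ∫ x in a..b, ‖f x - avg f a b‖ ≤ ∫ x in a..b, (‖f x - κ‖ + ‖κ - avg f a b‖) := by
    refine intervalIntegral.integral_mono_on hab.le
      (((hf.sub continuous_const).norm).intervalIntegrable _ _)
      ((((hf.sub continuous_const).norm).add continuous_const).intervalIntegrable _ _) ?_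
    intro x _
    have : f x - avg f a b = (f x - κ) + (κ - avg f a b) := by ring
    rw [this]
    exact norm_add_le _ _
  have h2' := intervalIntegral.integral_add (μ := volume) (a := a) (b := b)
    (f := fun x => ‖f x - κ‖) (g := fun _ => ‖κ - avg f a b‖)
    (((hf.sub continuous_const).norm).intervalIntegrable _ _)
    (continuous_const.intervalIntegrable _ _)
  rw [h2', intervalIntegral.integral_const, smul_eq_mul] at h2
  rw [div_le_iff₀ hl]
  have h3 : (b - a) * ‖κ - avg f a b‖ ≤ ∫ x in a..b, ‖f x - κ‖ := by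
    have := mul_le_mul_of_nonneg_left h1 hl.le
    rwa [mul_div_cancel₀ _ hl.ne'] at this
  have h4 : 2 * ((∫ x in a..b, ‖f x - κ‖) / (b - a)) * (b - a) =
      2 * ∫ x in a..b, ‖f x - κ‖ := by
    field_simp
  rw [h4]
  linarith

lemma main {F : ℝ → ℂ} (hF : SC F) {N : ℝ} (hN0 : 0 < N) (hN : ∀ y, ‖F y‖ ≤ N) {a b : ℝ}
    (hab : a < b) : osc (Pp F) a b ≤ 25 * N := by
  obtain ⟨l, hl⟩ : ∃ l : ℝ, l = b - a := ⟨_, rfl⟩
  obtain ⟨c, hc⟩ : ∃ c : ℝ, c = (a + b) / 2 := ⟨_, rfl⟩
  have hl0 : 0 < l := by rw [hl]; exact sub_pos.2 hab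
  obtain ⟨η, hη1, hη2⟩ : ∃ η : ContDiffBump c, η.rIn = l ∧ η.rOut = 2 * l :=
    ⟨⟨l, 2 * l, hl0, by linarith⟩, rfl, rfl⟩
  have hηc : ContDiff ℝ ∞ fun y => ((η y : ℝ) : ℂ) := Complex.ofRealCLM.contDiff.comp η.contDiff
  have hF1 : SC fun y => ((η y : ℝ) : ℂ) * F y := ⟨hηc.mul hF.s, hF.c.mul_left⟩
  have hF2 : SC fun y => (1 - ((η y : ℝ) : ℂ)) * F y :=
    ⟨(contDiff_const.sub hηc).mul hF.s, hF.c.mul_left⟩
  have hη01 : ∀ y, 0 ≤ η y ∧ η y ≤ 1 := fun y => ⟨η.nonneg, η.le_one⟩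
  have hsum : ∀ x, Pp F x = Pp (fun y => ((η y : ℝ) : ℂ) * F y) x +
      Pp (fun y => (1 - ((η y : ℝ) : ℂ)) * F y) x := by
    intro x
    rw [← Pp_add hF1 hF2]
    congr 1
    funext y
    ring
  obtain ⟨P1, hP1⟩ : ∃ P1, P1 = Pp fun y => ((η y : ℝ) : ℂ) * F y := ⟨_, rfl⟩
  obtain ⟨P2, hP2⟩ : ∃ P2, P2 = Pp fun y => (1 - ((η y : ℝ) : ℂ)) * F y := ⟨_, rfl⟩
  have c1 : Continuous P1 := by rw [hP1]; exact Pp_cont hF1
  have c2 : Continuous P2 := by rw [hP2]; exact Pp_cont hF2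
  -- the near part
  have n1 : ∀ y, ‖((η y : ℝ) : ℂ) * F y‖ ≤ N := by
    intro y
    rw [norm_mul, Complex.norm_real, Real.norm_eq_abs, abs_of_nonneg (hη01 y).1]
    calc η y * ‖F y‖ ≤ 1 * N := mul_le_mul (hη01 y).2 (hN y) (norm_nonneg _) zero_le_one
      _ = N := one_mul N
  have n2 : ∫ x, ‖((η x : ℝ) : ℂ) * F x‖ ^ 2 ≤ 4 * l * N ^ 2 := by
    have h1 : ∀ x, ‖((η x : ℝ) : ℂ) * F x‖ ^ 2 =
        (Icc (c - 2 * l) (c + 2 * l)).indicator (fun x => ‖((η x : ℝ) : ℂ) * F x‖ ^ 2) x := by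
      intro x
      by_cases h : x ∈ Icc (c - 2 * l) (c + 2 * l)
      · rw [indicator_of_mem h]
      · rw [indicator_of_notMem h]
        have h2 : η x = 0 := by
          apply η.zero_of_le_dist
          rw [hη2, Real.dist_eq]
          by_contra h3
          rw [not_le, abs_lt] at h3
          exact h ⟨by linarith [h3.1], by linarith [h3.2]⟩
        rw [h2]
        simp
    rw [show (fun x => ‖((η x : ℝ) : ℂ) * F x‖ ^ 2) =
      (Icc (c - 2 * l) (c + 2 * l)).indicator (fun x => ‖((η x : ℝ) : ℂ) * F x‖ ^ 2) from funext h1,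
      integral_indicator measurableSet_Icc]
    have h2 : ∫ x in Icc (c - 2 * l) (c + 2 * l), ‖((η x : ℝ) : ℂ) * F x‖ ^ 2 ≤
        ∫ x in Icc (c - 2 * l) (c + 2 * l), N ^ 2 := by
      refine setIntegral_mono_on ?_ (integrableOn_const (by rw [Real.volume_Icc]; exact ENNReal.ofReal_ne_top)) measurableSet_Icc ?_
      · exact ((hF1.s.continuous.norm.pow 2).continuousOn).integrableOn_Icc
      · intro x _
        exact pow_le_pow_left₀ (norm_nonneg _) (n1 x) 2
    refine h2.trans (le_of_eq ?_)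
    rw [setIntegral_const, smul_eq_mul, Measure.real, Real.volume_Icc, ENNReal.toReal_ofReal
      (by linarith)]
    ring
  have n3 : ∫ x in a..b, ‖P1 x‖ ^ 2 ≤ 16 * l * N ^ 2 := by
    have := near hF1 hab
    rw [← hP1] at this
    linarith
  have n4 : 2 * N * ∫ x in a..b, ‖P1 x‖ ≤ 17 * l * N ^ 2 := by
    have h1 : ∫ x in a..b, 2 * N * ‖P1 x‖ ≤ ∫ x in a..b, (‖P1 x‖ ^ 2 + N ^ 2) := by
      refine intervalIntegral.integral_mono_on hab.le
        ((continuous_const.mul c1.norm).intervalIntegrable _ _)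
        (((c1.norm.pow 2).add continuous_const).intervalIntegrable _ _) ?_
      intro x _
      nlinarith [sq_nonneg (‖P1 x‖ - N)]
    have h1' := intervalIntegral.integral_add (μ := volume) (a := a) (b := b)
      (f := fun x => ‖P1 x‖ ^ 2) (g := fun _ => N ^ 2)
      ((c1.norm.pow 2).intervalIntegrable _ _) (continuous_const.intervalIntegrable _ _)
    rw [intervalIntegral.integral_const_mul, h1', intervalIntegral.integral_const, smul_eq_mul,
      ← hl] at h1
    linarith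
  -- the far part
  have f1 : ∀ y, ‖(1 - ((η y : ℝ) : ℂ)) * F y‖ ≤ N := by
    intro y
    have e : (1 - ((η y : ℝ) : ℂ)) = ((1 - η y : ℝ) : ℂ) := by push_cast; ring
    rw [e, norm_mul, Complex.norm_real, Real.norm_eq_abs, abs_of_nonneg (by linarith [(hη01 y).2])]
    calc (1 - η y) * ‖F y‖ ≤ 1 * N :=
          mul_le_mul (by linarith [(hη01 y).1]) (hN y) (norm_nonneg _) zero_le_one
      _ = N := one_mul N
  have f2 : ∀ y, |y - c| ≤ l → (1 - ((η y : ℝ) : ℂ)) * F y = 0 := by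
    intro y hy
    have : η y = 1 := by
      apply η.one_of_mem_closedBall
      rw [hη1, Metric.mem_closedBall, Real.dist_eq]
      exact hy
    rw [this]
    simp
  have f3 : ∀ x ∈ Icc a b, ‖P2 x - P2 c‖ ≤ 4 * N := by
    intro x hx
    rw [hP2]
    refine far hF2 hl0 f1 f2 ?_ ?_
    · rw [abs_le, hc, hl]
      constructor <;> linarith [hx.1, hx.2]
    · rw [sub_self, abs_zero]
      positivity
  -- the sum
  have s1 : ∫ x in a..b, ‖Pp F x - P2 c‖ ≤ (∫ x in a..b, ‖P1 x‖) + 4 * N * l := by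
    have h1 : ∫ x in a..b, ‖Pp F x - P2 c‖ ≤ ∫ x in a..b, (‖P1 x‖ + 4 * N) := by
      refine intervalIntegral.integral_mono_on hab.le
        (((Pp_cont hF).sub continuous_const).norm.intervalIntegrable _ _)
        ((c1.norm.add continuous_const).intervalIntegrable _ _) ?_
      intro x hx
      have e : Pp F x - P2 c = P1 x + (P2 x - P2 c) := by
        rw [hsum x, ← hP1, ← hP2]
        ring
      rw [e]
      exact (norm_add_le _ _).trans (by linarith [f3 x hx])
    have h1' := intervalIntegral.integral_add (μ := volume) (a := a) (b := b)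
      (f := fun x => ‖P1 x‖) (g := fun _ => 4 * N)
      (c1.norm.intervalIntegrable _ _) (continuous_const.intervalIntegrable _ _)
    rw [h1', intervalIntegral.integral_const, smul_eq_mul, ← hl] at h1
    linarith
  have s2 : ∫ x in a..b, ‖P1 x‖ ≤ 17 / 2 * l * N := by
    have h1 : 2 * N * ∫ x in a..b, ‖P1 x‖ ≤ 2 * N * (17 / 2 * l * N) := by
      refine n4.trans (le_of_eq ?_)
      ring
    exact le_of_mul_le_mul_left h1 (by positivity)
  refine (osc_le (Pp_cont hF) hab (P2 c)).trans ?_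
  rw [← hl]
  have s3 : (∫ x in a..b, ‖Pp F x - P2 c‖) / l ≤ 25 / 2 * N := by
    rw [div_le_iff₀ hl0]
    nlinarith
  linarith

theorem t_LI : S_LI := by
  refine ⟨25, by norm_num, fun F N hF hN => ?_⟩
  have hN0 : 0 ≤ N := (norm_nonneg _).trans (hN 0)
  have hSC : SC F := by
    refine ⟨hF.s, HasCompactSupport.of_support_subset_isCompact isCompact_Icc (K := Icc (0 : ℝ) 1) ?_⟩
    intro x hx
    by_contra h
    exact hx (hF.o x h)
  unfold bmo
  refine iSup_le fun a => iSup_le fun b => iSup_le fun hab => ENNReal.ofReal_le_ofReal ?_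
  refine le_of_forall_pos_le_add fun δ hδ => ?_
  have h := main hSC (N := N + δ / 25) (by positivity) (fun y => (hN y).trans (by
    have : 0 < δ / 25 := by positivity
    linarith)) hab
  linarith

end Pool.Agent.Y481.PL
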