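import Pool.Agent.Y290.PL.Stm

/-!
# The analytic projection maps bounded functions to `BMO`: the bound in the mean square
-/

set_option autoImplicit false

namespace Pool.Agent.Y481.PL

open MeasureTheory Set Filter Topology
open scoped FourierTransform ENNReal ContDiff
open Pool.Agent.Y290.PL

lemma ex_norm (x ξ : ℝ) : ‖ex x ξ‖ = 1 := by
  unfold ex
  exact Complex.norm_exp_ofReal_mul_I _

lemma ex_cont : Continuous fun p : ℝ × ℝ => ex p.1 p.2 := by
  unfold ex
  fun_prop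

lemma ex_conj (x ξ : ℝ) : starRingEnd ℂ (ex x ξ) = ex x (-ξ) := by
  unfold ex
  rw [← Complex.exp_conj, map_mul, Complex.conj_ofReal, Complex.conj_I]
  congr 1
  push_cast
  ring

lemma ex_mul (x ξ η : ℝ) : ex x ξ * ex x η = ex x (ξ + η) := by
  unfold ex
  rw [← Complex.exp_add]
  congr 1
  push_cast
  ring

/-- Fourier integrals -/
noncomputable def U (G : ℝ → ℂ) (x : ℝ) : ℂ := ∫ ξ, G ξ * ex x ξ

lemma U_bd (G : ℝ → ℂ) (x : ℝ) : ‖U G x‖ ≤ ∫ ξ, ‖G ξ‖ := by
  unfold U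
  refine (norm_integral_le_integral_norm _).trans (le_of_eq ?_)
  congr 1
  funext ξ
  rw [norm_mul, ex_norm, mul_one]

lemma ex_cont_r (x : ℝ) : Continuous fun ξ => ex x ξ := by
  unfold ex
  fun_prop

lemma ex_cont_l (ξ : ℝ) : Continuous fun x => ex x ξ := by
  unfold ex
  fun_prop

lemma int_mul_ex {G : ℝ → ℂ} (hG : Integrable G) (x : ℝ) : Integrable fun ξ => G ξ * ex x ξ := by
  refine (hG.bdd_mul (c := 1) (ex_cont_r x).aestronglyMeasurable ?_).congr ?_
  · exact Eventually.of_forall fun ξ => (ex_norm x ξ).le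
  · exact Eventually.of_forall fun ξ => mul_comm _ _

lemma U_cont {G : ℝ → ℂ} (hG : Integrable G) : Continuous (U G) := by
  unfold U
  refine continuous_of_dominated (bound := fun ξ => ‖G ξ‖) (fun x => (int_mul_ex hG x).aestronglyMeasurable)
    (fun x => Eventually.of_forall fun ξ => ?_) hG.norm (Eventually.of_forall fun ξ => ?_)
  · rw [norm_mul, ex_norm, mul_one]
  · exact continuous_const.mul (ex_cont_l ξ)

/-- a Gaussian weight -/
noncomputable def ww (c R x : ℝ) : ℝ := Real.exp (-(Real.pi / R ^ 2) * (x - c) ^ 2)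

/-- its Fourier transform -/
noncomputable def kk (R s : ℝ) : ℝ := R * Real.exp (-(Real.pi * R ^ 2) * s ^ 2)

lemma ww_pos (c R x : ℝ) : 0 < ww c R x := Real.exp_pos _

lemma ww_cont (c R : ℝ) : Continuous (ww c R) := by
  unfold ww
  fun_prop

lemma kk_nn {R : ℝ} (hR : 0 < R) (s : ℝ) : 0 ≤ kk R s := by
  unfold kk
  positivity

lemma kk_int {R : ℝ} (hR : 0 < R) : Integrable (kk R) :=
  (integrable_exp_neg_mul_sq (by positivity)).const_mul R

lemma kk_one {R : ℝ} (hR : 0 < R) : ∫ s, kk R s = 1 := by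
  unfold kk
  rw [integral_const_mul, integral_gaussian]
  have h : Real.pi / (Real.pi * R ^ 2) = (1 / R) ^ 2 := by
    have := Real.pi_pos
    field_simp
  rw [h, Real.sqrt_sq (by positivity)]
  field_simp

lemma ww_int {R : ℝ} (hR : 0 < R) (c : ℝ) : Integrable (ww c R) := by
  have h := integrable_exp_neg_mul_sq (b := Real.pi / R ^ 2) (by have := Real.pi_pos; positivity)
  exact h.comp_sub_right c

lemma ww_four {R : ℝ} (hR : 0 < R) (c s : ℝ) : ‖∫ x, (ww c R x : ℂ) * ex x s‖ = kk R s := by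
  have hpi := Real.pi_pos
  have h1 : ∫ x, (ww c R x : ℂ) * ex x s = ∫ y, (ww c R (y + c) : ℂ) * ex (y + c) s :=
    (integral_add_right_eq_self (fun x => (ww c R x : ℂ) * ex x s) c).symm
  have h2 : ∀ y : ℝ, (ww c R (y + c) : ℂ) * ex (y + c) s =
      ex c s * (Complex.exp (Complex.I * ((2 * Real.pi * s : ℝ) : ℂ) * y) *
        Complex.exp (-((Real.pi / R ^ 2 : ℝ) : ℂ) * (y : ℂ) ^ 2)) := by
    intro y
    unfold ww ex
    rw [add_sub_cancel_right, Complex.ofReal_exp, ← Complex.exp_add, ← Complex.exp_add,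
      ← Complex.exp_add]
    congr 1
    push_cast
    ring
  have hb : 0 < ((Real.pi / R ^ 2 : ℝ) : ℂ).re := by
    rw [Complex.ofReal_re]
    positivity
  rw [h1]
  simp_rw [h2]
  rw [integral_const_mul, fourierIntegral_gaussian hb, norm_mul, ex_norm, one_mul, norm_mul]
  have h3 : (Real.pi : ℂ) / ((Real.pi / R ^ 2 : ℝ) : ℂ) = ((R ^ 2 : ℝ) : ℂ) := by
    have : (R : ℂ) ≠ 0 := by exact_mod_cast hR.ne'
    have h4 : (Real.pi : ℂ) ≠ 0 := by exact_mod_cast hpi.ne'
    push_cast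
    field_simp
  have h4 : ‖((R ^ 2 : ℝ) : ℂ) ^ (1 / 2 : ℂ)‖ = R := by
    rw [Complex.norm_cpow_eq_rpow_re_of_pos (by positivity)]
    have e : (1 / 2 : ℂ).re = 1 / 2 := by norm_num
    rw [e, ← Real.sqrt_eq_rpow, Real.sqrt_sq hR.le]
  have h5 : -((2 * Real.pi * s : ℝ) : ℂ) ^ 2 / (4 * ((Real.pi / R ^ 2 : ℝ) : ℂ)) =
      ((-(Real.pi * R ^ 2) * s ^ 2 : ℝ) : ℂ) := by
    have h6 : (R : ℂ) ≠ 0 := by exact_mod_cast hR.ne'
    have h7 : (Real.pi : ℂ) ≠ 0 := by exact_mod_cast hpi.ne'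
    push_cast
    field_simp
    ring
  rw [h3, h4, h5, Complex.norm_exp, Complex.ofReal_re]
  rfl

/-- the bound in the mean square -/
theorem l2w {G : ℝ → ℂ} (hG : Integrable G) (hG2 : Integrable fun ξ => ‖G ξ‖ ^ 2) (c : ℝ) {R : ℝ}
    (hR : 0 < R) : ∫ x, ‖U G x‖ ^ 2 * ww c R x ≤ ∫ ξ, ‖G ξ‖ ^ 2 := by
  have hU := U_cont hG
  -- the conjugate of the Fourier integral
  have hconj : ∀ x, starRingEnd ℂ (U G x) = ∫ η, starRingEnd ℂ (G η) * ex x (-η) := by
    intro x
    unfold U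
    rw [← integral_conj]
    congr 1
    funext η
    rw [map_mul, ex_conj]
  have hwU : Integrable fun x => (ww c R x : ℂ) * starRingEnd ℂ (U G x) := by
    have h1 : Integrable fun x => (ww c R x : ℂ) := (ww_int hR c).ofReal
    refine (h1.bdd_mul (c := ∫ ξ, ‖G ξ‖) (f := fun x => starRingEnd ℂ (U G x))
      ((Complex.continuous_conj.comp hU).aestronglyMeasurable) ?_).congr ?_
    · exact Eventually.of_forall fun x => by
        rw [RCLike.norm_conj]
        exact U_bd G x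
    · exact Eventually.of_forall fun x => mul_comm _ _
  -- first exchange
  have hF1 : Integrable (fun p : ℝ × ℝ => ((ww c R p.1 : ℂ) * starRingEnd ℂ (U G p.1)) *
      (G p.2 * ex p.1 p.2)) (volume.prod volume) := by
    have h1 := hwU.mul_prod hG
    refine (h1.bdd_mul (c := 1) (f := fun p : ℝ × ℝ => ex p.1 p.2)
      ex_cont.aestronglyMeasurable (Eventually.of_forall fun p => (ex_norm _ _).le)).congr ?_
    exact Eventually.of_forall fun p => by ring
  have e1 : ((∫ x, ‖U G x‖ ^ 2 * ww c R x : ℝ) : ℂ) =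
      ∫ ξ, G ξ * ∫ x, ((ww c R x : ℂ) * starRingEnd ℂ (U G x)) * ex x ξ := by
    rw [← integral_complex_ofReal]
    have h1 : ∀ x, ((‖U G x‖ ^ 2 * ww c R x : ℝ) : ℂ) =
        ∫ ξ, ((ww c R x : ℂ) * starRingEnd ℂ (U G x)) * (G ξ * ex x ξ) := by
      intro x
      rw [integral_const_mul]
      have h2 : ((‖U G x‖ ^ 2 : ℝ) : ℂ) = starRingEnd ℂ (U G x) * U G x := by
        rw [mul_comm, Complex.mul_conj, Complex.normSq_eq_norm_sq]
      show _ = (ww c R x : ℂ) * starRingEnd ℂ (U G x) * U G x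
      rw [mul_assoc, ← h2]
      push_cast
      ring
    simp_rw [h1]
    rw [integral_integral_swap hF1]
    congr 1
    funext ξ
    rw [← integral_const_mul]
    congr 1
    funext x
    ring
  -- second exchange
  have e2 : ∀ ξ, ‖∫ x, ((ww c R x : ℂ) * starRingEnd ℂ (U G x)) * ex x ξ‖ ≤
      ∫ η, ‖G η‖ * kk R (ξ - η) := by
    intro ξ
    have hF2 : Integrable (fun p : ℝ × ℝ => (ww c R p.1 : ℂ) * (starRingEnd ℂ (G p.2) *
        ex p.1 (ξ - p.2))) (volume.prod volume) := by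
      have h1 : Integrable fun x => (ww c R x : ℂ) := (ww_int hR c).ofReal
      have h0 : Integrable fun η => starRingEnd ℂ (G η) := by
        have := (Complex.conjCLE : ℂ ≃L[ℝ] ℂ).toContinuousLinearMap.integrable_comp hG
        exact this
      have h2 := h1.mul_prod h0
      have hc : Continuous fun p : ℝ × ℝ => ex p.1 (ξ - p.2) := by
        unfold ex
        fun_prop
      refine (h2.bdd_mul (c := 1) (f := fun p : ℝ × ℝ => ex p.1 (ξ - p.2))
        hc.aestronglyMeasurable (Eventually.of_forall fun p => (ex_norm _ _).le)).congr ?_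
      exact Eventually.of_forall fun p => by ring
    have h1 : ∀ x, ((ww c R x : ℂ) * starRingEnd ℂ (U G x)) * ex x ξ =
        ∫ η, (ww c R x : ℂ) * (starRingEnd ℂ (G η) * ex x (ξ - η)) := by
      intro x
      rw [hconj, integral_const_mul, mul_assoc, ← integral_mul_const]
      congr 2
      funext η
      rw [mul_assoc, ex_mul]
      congr 2
      ring
    simp_rw [h1]
    rw [integral_integral_swap hF2]
    refine (norm_integral_le_integral_norm _).trans (le_of_eq ?_)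
    congr 1
    funext η
    have h3 : ∫ x, (ww c R x : ℂ) * (starRingEnd ℂ (G η) * ex x (ξ - η)) =
        starRingEnd ℂ (G η) * ∫ x, (ww c R x : ℂ) * ex x (ξ - η) := by
      rw [← integral_const_mul]
      congr 1
      funext x
      ring
    rw [h3, norm_mul, RCLike.norm_conj, ww_four hR]
  -- the convolution
  have hcv : Integrable (fun p : ℝ × ℝ => ‖G p.2‖ ^ 2 * kk R (p.1 - p.2)) (volume.prod volume) :=
    hG2.convolution_integrand (ContinuousLinearMap.mul ℝ ℝ) (kk_int hR)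
  have hcv1 : Integrable (fun p : ℝ × ℝ => ‖G p.2‖ * kk R (p.1 - p.2)) (volume.prod volume) :=
    hG.norm.convolution_integrand (ContinuousLinearMap.mul ℝ ℝ) (kk_int hR)
  have hkb : ∀ s, kk R s ≤ R := by
    intro s
    unfold kk
    have : Real.exp (-(Real.pi * R ^ 2) * s ^ 2) ≤ 1 := by
      apply Real.exp_le_one_iff.2
      have := Real.pi_pos
      have : 0 ≤ Real.pi * R ^ 2 * s ^ 2 := by positivity
      linarith
    nlinarith
  have hkc : ∀ ξ, Continuous fun η => kk R (ξ - η) := by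
    intro ξ
    unfold kk
    fun_prop
  have hi1 : ∀ (f : ℝ → ℝ), Integrable f → ∀ ξ, Integrable fun η => f η * kk R (ξ - η) := by
    intro f hf ξ
    refine (hf.bdd_mul (c := R) (f := fun η => kk R (ξ - η)) (hkc ξ).aestronglyMeasurable
      (Eventually.of_forall fun η => ?_)).congr (Eventually.of_forall fun η => mul_comm _ _)
    rw [Real.norm_eq_abs, abs_of_nonneg (kk_nn hR _)]
    exact hkb _
  have hk1 : ∀ ξ, ∫ η, kk R (ξ - η) = 1 := by
    intro ξ
    rw [integral_sub_left_eq_self (kk R)]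
    exact kk_one hR
  have hkI : ∀ ξ, Integrable fun η => kk R (ξ - η) := fun ξ => (kk_int hR).comp_sub_left ξ
  have e3 : ∀ ξ, ‖G ξ‖ * ∫ η, ‖G η‖ * kk R (ξ - η) ≤
      1 / 2 * ‖G ξ‖ ^ 2 + 1 / 2 * ∫ η, ‖G η‖ ^ 2 * kk R (ξ - η) := by
    intro ξ
    have h1 : ∫ η, (‖G ξ‖ * (‖G η‖ * kk R (ξ - η))) ≤
        ∫ η, (1 / 2 * ‖G ξ‖ ^ 2 * kk R (ξ - η) + 1 / 2 * (‖G η‖ ^ 2 * kk R (ξ - η))) := by
      refine integral_mono ((hi1 _ hG.norm ξ).const_mul _) (((hkI ξ).const_mul _).add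
        ((hi1 _ hG2 ξ).const_mul _)) fun η => ?_
      have h2 : 2 * (‖G ξ‖ * ‖G η‖) ≤ ‖G ξ‖ ^ 2 + ‖G η‖ ^ 2 := by
        nlinarith [sq_nonneg (‖G ξ‖ - ‖G η‖)]
      have h3 := mul_le_mul_of_nonneg_right h2 (kk_nn hR (ξ - η))
      show ‖G ξ‖ * (‖G η‖ * kk R (ξ - η)) ≤ 1 / 2 * ‖G ξ‖ ^ 2 * kk R (ξ - η) +
        1 / 2 * (‖G η‖ ^ 2 * kk R (ξ - η))
      nlinarith
    rw [integral_const_mul, integral_add ((hkI ξ).const_mul _) ((hi1 _ hG2 ξ).const_mul _),
      integral_const_mul, integral_const_mul, hk1] at h1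
    linarith
  have hcvI : Integrable fun ξ => ∫ η, ‖G η‖ ^ 2 * kk R (ξ - η) := hcv.integral_prod_left
  have hcvJ : Integrable fun ξ => ‖G ξ‖ * ∫ η, ‖G η‖ * kk R (ξ - η) := by
    have h1 : Integrable fun ξ => 1 / 2 * ‖G ξ‖ ^ 2 + 1 / 2 * ∫ η, ‖G η‖ ^ 2 * kk R (ξ - η) :=
      (hG2.const_mul _).add (hcvI.const_mul _)
    refine h1.mono' (hG.norm.aestronglyMeasurable.mul
      hcv1.integral_prod_left.aestronglyMeasurable) (Eventually.of_forall fun ξ => ?_)
    have h2 : 0 ≤ ∫ η, ‖G η‖ * kk R (ξ - η) :=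
      integral_nonneg fun η => mul_nonneg (norm_nonneg _) (kk_nn hR _)
    rw [Real.norm_eq_abs, abs_of_nonneg (mul_nonneg (norm_nonneg _) h2)]
    exact e3 ξ
  have e4 : ∫ ξ, ∫ η, ‖G η‖ ^ 2 * kk R (ξ - η) = ∫ ξ, ‖G ξ‖ ^ 2 := by
    rw [integral_integral_swap hcv]
    congr 1
    funext η
    rw [integral_const_mul, integral_sub_right_eq_self (kk R) η, kk_one hR, mul_one]
  have e5 : ∫ ξ, (‖G ξ‖ * ∫ η, ‖G η‖ * kk R (ξ - η)) ≤ ∫ ξ, ‖G ξ‖ ^ 2 := by
    refine (integral_mono hcvJ ((hG2.const_mul _).add (hcvI.const_mul _)) e3).trans (le_of_eq ?_)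
    have h1 := integral_add' (hG2.const_mul (1 / 2)) (hcvI.const_mul (1 / 2))
    rw [h1, integral_const_mul, integral_const_mul, e4]
    ring
  -- the end
  have h0 : 0 ≤ ∫ x, ‖U G x‖ ^ 2 * ww c R x :=
    integral_nonneg fun x => mul_nonneg (by positivity) (ww_pos c R x).le
  have h6 : ‖((∫ x, ‖U G x‖ ^ 2 * ww c R x : ℝ) : ℂ)‖ = ∫ x, ‖U G x‖ ^ 2 * ww c R x := by
    rw [Complex.norm_real, Real.norm_of_nonneg h0]
  rw [← h6, e1]
  refine (norm_integral_le_integral_norm _).trans (le_trans ?_ e5)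
  refine integral_mono_of_nonneg (Eventually.of_forall fun ξ => norm_nonneg _) hcvJ
    (Eventually.of_forall fun ξ => ?_)
  show ‖G ξ * ∫ x, ((ww c R x : ℂ) * starRingEnd ℂ (U G x)) * ex x ξ‖ ≤
    ‖G ξ‖ * ∫ η, ‖G η‖ * kk R (ξ - η)
  rw [norm_mul]
  exact mul_le_mul_of_nonneg_left (e2 ξ) (norm_nonneg _)

/-- the bound in the mean square on an interval -/
theorem l2i {G : ℝ → ℂ} (hG : Integrable G) (hG2 : Integrable fun ξ => ‖G ξ‖ ^ 2) {a b : ℝ}
    (hab : a < b) : ∫ x in a..b, ‖U G x‖ ^ 2 ≤ 4 * ∫ ξ, ‖G ξ‖ ^ 2 := by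
  have hU := U_cont hG
  have h1 := l2w hG hG2 ((a + b) / 2) (sub_pos.2 hab)
  have hR : 0 < b - a := sub_pos.2 hab
  have hB : ∀ x, ‖U G x‖ ≤ ∫ ξ, ‖G ξ‖ := U_bd G
  have hI : Integrable fun x => ‖U G x‖ ^ 2 * ww ((a + b) / 2) (b - a) x := by
    refine ((ww_int hR ((a + b) / 2)).bdd_mul (c := (∫ ξ, ‖G ξ‖) ^ 2)
      (f := fun x => ‖U G x‖ ^ 2) (hU.norm.pow 2).aestronglyMeasurable
      (Eventually.of_forall fun x => ?_))
    rw [Real.norm_eq_abs, abs_of_nonneg (by positivity)]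
    exact pow_le_pow_left₀ (norm_nonneg _) (hB x) 2
  have h2 : ∫ x in a..b, ‖U G x‖ ^ 2 * ww ((a + b) / 2) (b - a) x ≤
      ∫ x, ‖U G x‖ ^ 2 * ww ((a + b) / 2) (b - a) x := by
    rw [intervalIntegral.integral_of_le hab.le]
    exact setIntegral_le_integral hI (Eventually.of_forall fun x =>
      mul_nonneg (by positivity) (ww_pos _ _ x).le)
  have h3 : ∫ x in a..b, ‖U G x‖ ^ 2 ≤
      ∫ x in a..b, 4 * (‖U G x‖ ^ 2 * ww ((a + b) / 2) (b - a) x) := by
    refine intervalIntegral.integral_mono_on hab.le ((hU.norm.pow 2).intervalIntegrable _ _)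
      ((continuous_const.mul ((hU.norm.pow 2).mul (ww_cont _ _))).intervalIntegrable _ _) ?_
    intro x hx
    have h4 : (1 : ℝ) ≤ 4 * ww ((a + b) / 2) (b - a) x := by
      have h5 : -1 ≤ -(Real.pi / (b - a) ^ 2) * (x - (a + b) / 2) ^ 2 := by
        have h6 : (x - (a + b) / 2) ^ 2 ≤ (b - a) ^ 2 / 4 := by
          have h7 := hx.1
          have h8 := hx.2
          nlinarith
        have h9 : Real.pi / (b - a) ^ 2 * (x - (a + b) / 2) ^ 2 ≤
            Real.pi / (b - a) ^ 2 * ((b - a) ^ 2 / 4) :=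
          mul_le_mul_of_nonneg_left h6 (by have := Real.pi_pos; positivity)
        have h10 : Real.pi / (b - a) ^ 2 * ((b - a) ^ 2 / 4) = Real.pi / 4 := by
          field_simp
        have := Real.pi_lt_four
        linarith
      have h11 : Real.exp (-1) ≤ ww ((a + b) / 2) (b - a) x := Real.exp_le_exp.2 h5
      have h12 : (1 : ℝ) / 4 ≤ Real.exp (-1) := by
        rw [Real.exp_neg, one_div]
        apply inv_anti₀ (Real.exp_pos _)
        have := Real.exp_one_lt_d9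
        linarith
      linarith
    have h5 : (0 : ℝ) ≤ ‖U G x‖ ^ 2 := by positivity
    nlinarith
  rw [intervalIntegral.integral_const_mul] at h3
  linarith

end Pool.Agent.Y481.PL
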